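import Pool.Agent.H477.O.Stm6

/-! S_QTC for project Q of helper477 (by helper799): Moebius transformation and Hadamard's three circles. -/

set_option autoImplicit false

open Complex Filter Topology Metric Set MeasureTheory
open scoped ComplexConjugate

namespace Pool.Agent.H799.Q

open Pool.Agent.H477.O

theorem QTC : S_QTC := by
  intro R K ℓ u hR hK hℓ hu huR f c hf hre hK1 hq z hz
  have hR0 : 0 < R := by linarith
  have hℓ0 : 0 < ℓ := by linarith
  have hK0 : 0 < K := by linarith
  have hKl : 0 < K * ℓ := mul_pos hK0 hℓ0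
  have hL : 0 < Real.log R := Real.log_pos (by linarith)
  have hlogl : 0 < Real.log ℓ := Real.log_pos (by linarith)
  set q : ℝ := Real.exp (-(u / (R * Real.log R) * Real.log ℓ)) with hqdef
  have hq0 : 0 < q := Real.exp_pos _
  have hcast : ((2 * (K * ℓ) : ℝ) : ℂ).re = 2 * (K * ℓ) := Complex.ofReal_re _
  have hden : ∀ w ∈ closedBall c R, f w + ((2 * (K * ℓ) : ℝ) : ℂ) ≠ 0 := by
    intro w hw h0
    have h1 := congrArg Complex.re h0
    rw [Complex.add_re, hcast, Complex.zero_re] at h1
    have h2 := hre w hw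
    linarith
  set m : ℂ → ℂ := fun w => f w / (f w + ((2 * (K * ℓ) : ℝ) : ℂ)) with hm
  have hm1 : ∀ w ∈ closedBall c R, ‖m w‖ ≤ 1 := by
    intro w hw
    rw [hm]
    show ‖f w / (f w + ((2 * (K * ℓ) : ℝ) : ℂ))‖ ≤ 1
    rw [norm_div, div_le_one (norm_pos_iff.2 (hden w hw)),
      ← sq_le_sq₀ (norm_nonneg _) (norm_nonneg _), Complex.sq_norm, Complex.sq_norm,
      Complex.normSq_apply, Complex.normSq_apply, Complex.add_re, Complex.add_im, hcast,
      Complex.ofReal_im, add_zero]
    have h2 := hre w hw
    have h3 : 0 ≤ (K * ℓ) * ((f w).re + K * ℓ) := mul_nonneg hKl.le (by linarith)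
    nlinarith
  have hm2 : ∀ w ∈ closedBall c 1, ‖m w‖ ≤ ℓ⁻¹ := by
    intro w hw
    have hw' : w ∈ closedBall c R := closedBall_subset_closedBall (by linarith) hw
    rw [hm]
    show ‖f w / (f w + ((2 * (K * ℓ) : ℝ) : ℂ))‖ ≤ ℓ⁻¹
    have h1 := hK1 w hw
    have h2 : K * ℓ ≤ ‖f w + ((2 * (K * ℓ) : ℝ) : ℂ)‖ := by
      have h3 := norm_sub_norm_le ((2 * (K * ℓ) : ℝ) : ℂ) (-f w)
      rw [sub_neg_eq_add, norm_neg, Complex.norm_real, Real.norm_of_nonneg (by positivity),
        add_comm] at h3
      have h4 : K ≤ K * ℓ := by nlinarith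
      linarith
    rw [norm_div, div_le_iff₀ (lt_of_lt_of_le hKl h2)]
    calc ‖f w‖ ≤ K := h1
      _ = ℓ⁻¹ * (K * ℓ) := by field_simp
      _ ≤ _ := mul_le_mul_of_nonneg_left h2 (inv_pos.2 hℓ0).le
  -- `‖m z‖ ≤ q`
  have hmz : ‖m z‖ ≤ q := by
    have hinv : ℓ⁻¹ = Real.exp (-Real.log ℓ) := by
      rw [Real.exp_neg, Real.exp_log hℓ0]
    by_cases hρ : ‖z - c‖ ≤ 1
    · refine (hm2 z (by rwa [mem_closedBall, dist_eq_norm])).trans ?_
      rw [hinv, hqdef]
      refine Real.exp_le_exp.2 ?_
      have h1 : u / (R * Real.log R) ≤ 1 := by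
        rw [div_le_one (mul_pos hR0 hL)]
        have h2 := Real.one_sub_inv_le_log_of_pos hR0
        have h3 := mul_le_mul_of_nonneg_left h2 hR0.le
        have h4 : R * (1 - R⁻¹) = R - 1 := by field_simp
        linarith
      have h5 := mul_le_mul_of_nonneg_right h1 hlogl.le
      linarith
    · push Not at hρ
      have hρR : ‖z - c‖ ≤ R - u := by rwa [mem_closedBall, dist_eq_norm] at hz
      have hne : z - c ≠ 0 := by
        rw [← norm_pos_iff]
        linarith
      have hρ0 : 0 < ‖z - c‖ := norm_pos_iff.2 hne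
      have hlogρ0 : 0 ≤ Real.log ‖z - c‖ := Real.log_nonneg hρ.le
      have hlogρ1 : Real.log ‖z - c‖ ≤ Real.log R := Real.log_le_log hρ0 (by linarith)
      have hmem : ∀ w : ℂ, w.re ≤ Real.log R → c + Complex.exp w ∈ closedBall c R := by
        intro w hw
        rw [mem_closedBall, dist_eq_norm, add_sub_cancel_left, Complex.norm_exp]
        calc Real.exp w.re ≤ Real.exp (Real.log R) := Real.exp_le_exp.2 hw
          _ = R := Real.exp_log hR0
      have hdiff : DiffContOnCl ℂ (fun w => m (c + Complex.exp w))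
          (Complex.HadamardThreeLines.verticalStrip 0 (Real.log R)) := by
        apply DifferentiableOn.diffContOnCl
        have hcl : closure (Complex.HadamardThreeLines.verticalStrip 0 (Real.log R)) ⊆
            Complex.HadamardThreeLines.verticalClosedStrip 0 (Real.log R) := by
          refine closure_minimal ?_ (isClosed_Icc.preimage Complex.continuous_re)
          intro w hw
          exact ⟨hw.1.le, hw.2.le⟩
        intro w hw
        have hw' := hcl hw
        have hb := hmem w hw'.2
        have h1 : DifferentiableAt ℂ f (c + Complex.exp w) := (hf _ hb).differentiableAt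
        have h2 : DifferentiableAt ℂ m (c + Complex.exp w) :=
          h1.div (h1.add_const _) (hden _ hb)
        have h3 : DifferentiableAt ℂ (fun w => c + Complex.exp w) w :=
          (Complex.differentiable_exp w).const_add c
        exact (h2.comp w h3).differentiableWithinAt
      have hbdd : BddAbove ((norm ∘ fun w => m (c + Complex.exp w)) ''
          Complex.HadamardThreeLines.verticalClosedStrip 0 (Real.log R)) := by
        refine ⟨1, ?_⟩
        rintro _ ⟨w, hw, rfl⟩
        exact hm1 _ (hmem w hw.2)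
      have hlre : (Complex.log (z - c)).re = Real.log ‖z - c‖ := Complex.log_re _
      have h3l := Complex.HadamardThreeLines.norm_le_interp_of_mem_verticalClosedStrip'
        (f := fun w => m (c + Complex.exp w)) (z := Complex.log (z - c)) (a := ℓ⁻¹) (b := 1) hL
        ⟨by rw [hlre]; exact hlogρ0, by rw [hlre]; exact hlogρ1⟩ hdiff hbdd
        (by
          intro w hw
          have hw0 : w.re = 0 := hw
          refine hm2 _ ?_
          rw [mem_closedBall, dist_eq_norm, add_sub_cancel_left, Complex.norm_exp, hw0,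
            Real.exp_zero])
        (by
          intro w hw
          have hw0 : w.re = Real.log R := hw
          exact hm1 _ (hmem w hw0.le))
      have hexp : c + Complex.exp (Complex.log (z - c)) = z := by
        rw [Complex.exp_log hne]
        ring
      simp only [hexp, hlre, sub_zero, Real.one_rpow, mul_one] at h3l
      refine h3l.trans ?_
      rw [hinv, ← Real.exp_mul, hqdef]
      refine Real.exp_le_exp.2 ?_
      -- the exponent
      have h4 : u / (R * Real.log R) ≤ 1 - Real.log ‖z - c‖ / Real.log R := by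
        have h5 : u / R ≤ Real.log R - Real.log ‖z - c‖ := by
          have h6 : Real.log ‖z - c‖ ≤ Real.log (R - u) := Real.log_le_log hρ0 hρR
          have hRu : 0 < R - u := by linarith
          have h7 : Real.log (R - u) - Real.log R ≤ -(u / R) := by
            rw [← Real.log_div hRu.ne' hR0.ne']
            have h8 := Real.log_le_sub_one_of_pos (div_pos hRu hR0)
            have h9 : (R - u) / R - 1 = -(u / R) := by field_simp; ring
            linarith
          linarith
        have h10 : 1 - Real.log ‖z - c‖ / Real.log R =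
            (Real.log R - Real.log ‖z - c‖) / Real.log R := by
          field_simp
        rw [h10, ← div_div]
        exact div_le_div_of_nonneg_right h5 hL.le
      have h11 := mul_le_mul_of_nonneg_right h4 hlogl.le
      linarith
  -- back to `f`
  have hzR : z ∈ closedBall c R := closedBall_subset_closedBall (by linarith) hz
  have hd := hden z hzR
  have hfm : f z = m z * f z + m z * ((2 * (K * ℓ) : ℝ) : ℂ) := by
    rw [← mul_add]
    show f z = f z / (f z + ((2 * (K * ℓ) : ℝ) : ℂ)) * (f z + ((2 * (K * ℓ) : ℝ) : ℂ))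
    rw [div_mul_cancel₀ _ hd]
  have hn : ‖f z‖ ≤ ‖m z‖ * ‖f z‖ + ‖m z‖ * (2 * (K * ℓ)) := by
    calc ‖f z‖ = ‖m z * f z + m z * ((2 * (K * ℓ) : ℝ) : ℂ)‖ := by rw [← hfm]
      _ ≤ ‖m z * f z‖ + ‖m z * ((2 * (K * ℓ) : ℝ) : ℂ)‖ := norm_add_le _ _
      _ = _ := by
        rw [norm_mul, norm_mul, Complex.norm_real, Real.norm_of_nonneg (by positivity)]
  have hfn := norm_nonneg (f z)
  have h20 : ‖m z‖ * ‖f z‖ ≤ 1 / 4 * ‖f z‖ := mul_le_mul_of_nonneg_right (hmz.trans hq) hfn
  have h21 : ‖m z‖ * (2 * (K * ℓ)) ≤ q * (2 * (K * ℓ)) :=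
    mul_le_mul_of_nonneg_right hmz (by positivity)
  have h22 : 0 < K * ℓ * q := mul_pos hKl hq0
  have h23 : 8 * K * ℓ * q = 8 * (K * ℓ * q) := by ring
  rw [h23]
  nlinarith

end Pool.Agent.H799.Q
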